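import Mathlib

/-!
# MP_0ef770_co: partition regularity of `x - 2 y = p(z)`

For a polynomial `p` with integer coefficients, `p(0) = 0` and degree at least two, the equation
`x - 2 y = p(z)` is partition regular if and only if it has a constant solution `x = y = z = n`, that
is, if and only if `p(n) = -n` for some positive integer `n`. In particular `x - 2 y = z ^ 2` is not
partition regular.

The colouring: small numbers get colours of their own; a large number `n` is coloured by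
`⌊4 log₂ n⌋` modulo `9` and by `⌊4 log₂ ⌊log₂ n⌋⌋` modulo a constant. The first colour excludes
solutions in which `|p(z)|` is at most `2 y`, respectively `y / 2`, as then `x / y` is between `3 / 2`
and `4`; in the other solutions `x` or `y` has the order of magnitude of `z ^ deg p`, and the second
colour excludes them.
-/

set_option autoImplicit false

open Polynomial Filter

namespace Pool.Agent.Results.MP_0ef770_co.DegreeAtLeastTwo

/-- The equation `x - 2 y = p(z)` in positive integers is partition regular: for every colouring of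
the positive integers with finitely many colours it has a monochromatic solution (the unknowns need
not be distinct). -/
def PartitionRegular (p : ℤ[X]) : Prop :=
  ∀ (r : ℕ) (c : ℕ+ → Fin r), ∃ x y z : ℕ+, c x = c y ∧ c y = c z ∧
    (x : ℤ) - 2 * (y : ℤ) = p.eval (z : ℤ)

/-- `⌊4 log₂ n⌋` -/
def lg (n : ℕ) : ℕ := Nat.log 2 (n ^ 4)

theorem lg_lt {u v : ℕ} (hu : 0 < u) (h : 3 * u ≤ 2 * v) : lg u < lg v := by
  have hv : 0 < v := by omega
  have h1 : 2 * u ^ 4 ≤ v ^ 4 := by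
    have h2 : (3 * u) ^ 4 ≤ (2 * v) ^ 4 := Nat.pow_le_pow_left h 4
    rw [mul_pow, mul_pow] at h2
    norm_num at h2
    omega
  have h4 : Nat.log 2 (2 * u ^ 4) ≤ Nat.log 2 (v ^ 4) := Nat.log_mono_right h1
  have h5 : Nat.log 2 (u ^ 4 * 2) = Nat.log 2 (u ^ 4) + 1 :=
    Nat.log_mul_base (by norm_num) (by positivity)
  unfold lg
  rw [mul_comm] at h4
  omega

theorem lg_le {u v k : ℕ} (hu : 0 < u) (h : v ≤ 2 ^ k * u) : lg v ≤ lg u + 4 * k := by
  have h1 : v ^ 4 ≤ u ^ 4 * 2 ^ (4 * k) := by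
    calc v ^ 4 ≤ (2 ^ k * u) ^ 4 := Nat.pow_le_pow_left h 4
      _ = u ^ 4 * 2 ^ (4 * k) := by rw [mul_pow, ← pow_mul, mul_comm k 4, mul_comm]
  have h2 : Nat.log 2 (u ^ 4 * 2 ^ (4 * k)) = Nat.log 2 (u ^ 4) + 4 * k := by
    induction 4 * k with
    | zero => simp
    | succ n ih =>
      rw [pow_succ 2 n, ← mul_assoc, Nat.log_mul_base (by norm_num) (by positivity), ih]
      rfl
  unfold lg
  calc Nat.log 2 (v ^ 4) ≤ Nat.log 2 (u ^ 4 * 2 ^ (4 * k)) := Nat.log_mono_right h1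
    _ = _ := h2

/-- Numbers whose ratio is between `3 / 2` and `2 ^ k` have different colours. -/
theorem lg_mod_ne {u v k : ℕ} (hu : 0 < u) (h1 : 3 * u ≤ 2 * v) (h2 : v ≤ 2 ^ k * u) :
    lg u % (4 * k + 1) ≠ lg v % (4 * k + 1) := by
  have h3 := lg_lt hu h1
  have h4 := lg_le hu h2
  intro h
  have h5 : (lg v - lg u) % (4 * k + 1) = 0 := Nat.sub_mod_eq_zero_of_mod_eq h.symm
  have h6 : lg v - lg u < 4 * k + 1 := by omega
  rw [Nat.mod_eq_of_lt h6] at h5
  omega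

/-- Growth of a polynomial of degree `d ≥ 2` at the large positive integers. -/
theorem growth {p : ℤ[X]} (hd : 2 ≤ p.natDegree) : ∃ s N : ℕ, ∀ z : ℕ, N ≤ z →
    z ^ 2 ≤ 2 ^ s * (p.eval (z : ℤ)).natAbs ∧
    (p.eval (z : ℤ)).natAbs ≤ 2 ^ s * z ^ p.natDegree := by
  set q : ℝ[X] := p.map (Int.castRingHom ℝ) with hq
  have hqd : q.natDegree = p.natDegree :=
    natDegree_map_eq_of_injective (RingHom.injective_int _) p
  have hq0 : q ≠ 0 := by
    intro h
    rw [h, natDegree_zero] at hqd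
    omega
  have hqdeg : q.degree = (p.natDegree : WithBot ℕ) := by
    rw [degree_eq_natDegree hq0, hqd]
  have h1 : (fun x : ℝ => eval x (X ^ 2 : ℝ[X])) =O[atTop] fun x => eval x q := by
    apply Polynomial.isBigO_atTop_of_degree_le
    rw [degree_X_pow, hqdeg]
    exact_mod_cast hd
  have h2 : (fun x : ℝ => eval x q) =O[atTop] fun x => eval x (X ^ p.natDegree : ℝ[X]) := by
    apply Polynomial.isBigO_atTop_of_degree_le
    rw [degree_X_pow, hqdeg]
  obtain ⟨C1, hC1⟩ := h1.bound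
  obtain ⟨C2, hC2⟩ := h2.bound
  obtain ⟨s, hs⟩ := exists_nat_gt (max C1 C2)
  have hs2 : max C1 C2 ≤ (2 : ℝ) ^ s := by
    have : (s : ℝ) < 2 ^ s := by exact_mod_cast Nat.lt_two_pow_self
    linarith
  have hall : ∀ᶠ z : ℕ in atTop,
      ‖eval (z : ℝ) (X ^ 2 : ℝ[X])‖ ≤ C1 * ‖eval (z : ℝ) q‖ ∧
      ‖eval (z : ℝ) q‖ ≤ C2 * ‖eval (z : ℝ) (X ^ p.natDegree : ℝ[X])‖ :=
    tendsto_natCast_atTop_atTop.eventually (hC1.and hC2)
  obtain ⟨N, hN⟩ := eventually_atTop.1 hall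
  refine ⟨s, N, fun z hz => ?_⟩
  obtain ⟨hz1, hz2⟩ := hN z hz
  have he : eval (z : ℝ) q = ((p.eval (z : ℤ) : ℤ) : ℝ) := by
    rw [hq, eval_natCast_map]
    simp
  have hn : ‖eval (z : ℝ) q‖ = ((p.eval (z : ℤ)).natAbs : ℝ) := by
    rw [he, Real.norm_eq_abs, Nat.cast_natAbs, Int.cast_abs]
  rw [hn] at hz1 hz2
  have e1 : ∀ k : ℕ, ‖eval (z : ℝ) (X ^ k : ℝ[X])‖ = (z : ℝ) ^ k := by
    intro k
    rw [eval_pow, eval_X, norm_pow, Real.norm_natCast]
  rw [e1] at hz1 hz2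
  have hC1' : C1 ≤ 2 ^ s := le_trans (le_max_left _ _) hs2
  have hC2' : C2 ≤ 2 ^ s := le_trans (le_max_right _ _) hs2
  constructor
  · have : (z : ℝ) ^ 2 ≤ 2 ^ s * ((p.eval (z : ℤ)).natAbs : ℝ) :=
      hz1.trans (mul_le_mul_of_nonneg_right hC1' (by positivity))
    exact_mod_cast this
  · have : ((p.eval (z : ℤ)).natAbs : ℝ) ≤ 2 ^ s * (z : ℝ) ^ p.natDegree :=
      hz2.trans (mul_le_mul_of_nonneg_right hC2' (by positivity))
    exact_mod_cast this

/-- The key estimate for the second colour. -/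
theorem log_ratio {s d z P w : ℕ} (hz : 2 ^ (2 * s + 4) ≤ z) (h1 : z ^ 2 ≤ 2 ^ s * P)
    (h2 : P ≤ 2 ^ s * z ^ d) (hw1 : P ≤ 2 * w) (hw2 : w ≤ 2 * P) :
    3 * Nat.log 2 z ≤ 2 * Nat.log 2 w ∧ Nat.log 2 w ≤ 2 ^ (s + 1 + 2 * d) * Nat.log 2 z := by
  have hz0 : 0 < z := lt_of_lt_of_le (by positivity) hz
  have hl : 2 * s + 4 ≤ Nat.log 2 z := Nat.le_log_of_pow_le (by norm_num) hz
  have hP0 : 0 < P := by
    rcases Nat.eq_zero_or_pos P with h | h
    · rw [h] at h1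
      have : 0 < z ^ 2 := by positivity
      omega
    · exact h
  have hw0 : 0 < w := by omega
  have hpow : ∀ m n : ℕ, 0 < m → Nat.log 2 (m * 2 ^ n) = Nat.log 2 m + n := by
    intro m n hm
    induction n with
    | zero => simp
    | succ n ih =>
      rw [pow_succ, ← mul_assoc, Nat.log_mul_base (by norm_num) (by positivity), ih]
      rfl
  constructor
  · -- `z ^ 2 ≤ 2 ^ (s + 1) w`
    have h3 : z ^ 2 ≤ w * 2 ^ (s + 1) := by
      calc z ^ 2 ≤ 2 ^ s * P := h1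
        _ ≤ 2 ^ s * (2 * w) := Nat.mul_le_mul_left _ hw1
        _ = w * 2 ^ (s + 1) := by ring
    have h4 : 2 ^ (2 * Nat.log 2 z) ≤ z ^ 2 := by
      rw [mul_comm, pow_mul]
      exact Nat.pow_le_pow_left (Nat.pow_log_le_self 2 hz0.ne') 2
    have h5 : 2 * Nat.log 2 z ≤ Nat.log 2 (w * 2 ^ (s + 1)) :=
      Nat.le_log_of_pow_le (by norm_num) (h4.trans h3)
    rw [hpow _ _ hw0] at h5
    omega
  · have h3 : w ≤ z ^ d * 2 ^ (s + 1) := by
      calc w ≤ 2 * P := hw2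
        _ ≤ 2 * (2 ^ s * z ^ d) := Nat.mul_le_mul_left _ h2
        _ = z ^ d * 2 ^ (s + 1) := by ring
    have h4 : Nat.log 2 w ≤ Nat.log 2 (z ^ d) + (s + 1) := by
      rw [← hpow _ _ (by positivity)]
      exact Nat.log_mono_right h3
    have h5 : Nat.log 2 (z ^ d) ≤ d * (Nat.log 2 z + 1) := by
      apply Nat.le_of_lt_succ
      apply Nat.log_lt_of_lt_pow (by positivity)
      calc z ^ d ≤ (2 ^ (Nat.log 2 z + 1)) ^ d :=
            Nat.pow_le_pow_left (Nat.lt_pow_succ_log_self (by norm_num) z).le d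
        _ = 2 ^ (d * (Nat.log 2 z + 1)) := by rw [← pow_mul, mul_comm]
        _ < 2 ^ (d * (Nat.log 2 z + 1)).succ := Nat.pow_lt_pow_right (by norm_num) (Nat.lt_succ_self _)
    have h6 : s + 1 + 2 * d < 2 ^ (s + 1 + 2 * d) := Nat.lt_two_pow_self
    have h7 : 1 ≤ Nat.log 2 z := by omega
    calc Nat.log 2 w ≤ d * (Nat.log 2 z + 1) + (s + 1) := by omega
      _ ≤ (s + 1 + 2 * d) * Nat.log 2 z := by nlinarith
      _ ≤ 2 ^ (s + 1 + 2 * d) * Nat.log 2 z := Nat.mul_le_mul_right _ h6.le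

/-- Let `p` be a polynomial with integer coefficients, `p(0) = 0` and degree at least two. The
equation `x - 2 y = p(z)` is partition regular over the positive integers if and only if `p(n) = -n`
for some positive integer `n` (and then `x = y = z = n` is a solution). -/
theorem result (p : ℤ[X]) (_h0 : p.eval 0 = 0) (hd : 2 ≤ p.natDegree) :
    PartitionRegular p ↔ ∃ n : ℕ+, p.eval (n : ℤ) = -(n : ℤ) := by
  constructor
  swap
  · rintro ⟨n, hn⟩ r c
    exact ⟨n, n, n, rfl, rfl, by rw [hn]; ring⟩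
  intro hreg
  by_contra hno
  obtain ⟨s, N, hN⟩ := growth hd
  set d := p.natDegree with hdd
  set M : ℕ := max N (2 ^ (2 * s + 4)) with hM
  set k : ℕ := s + 1 + 2 * d with hk
  -- the colouring
  set col : ℕ+ → Fin (M + 1) × Fin (4 * 2 + 1) × Fin (4 * k + 1) := fun n =>
    (⟨min (n : ℕ) M, by omega⟩, ⟨lg n % (4 * 2 + 1), Nat.mod_lt _ (by omega)⟩,
      ⟨lg (Nat.log 2 n) % (4 * k + 1), Nat.mod_lt _ (by omega)⟩) with hcol
  obtain ⟨e⟩ : Nonempty (Fin (M + 1) × Fin (4 * 2 + 1) × Fin (4 * k + 1) ≃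
      Fin (Fintype.card (Fin (M + 1) × Fin (4 * 2 + 1) × Fin (4 * k + 1)))) :=
    ⟨Fintype.equivFin _⟩
  obtain ⟨x, y, z, hxy, hyz, heq⟩ := hreg _ (fun n => e (col n))
  have hxy' : col x = col y := e.injective hxy
  have hyz' : col y = col z := e.injective hyz
  simp only [hcol, Prod.mk.injEq, Fin.mk.injEq] at hxy' hyz'
  obtain ⟨hxy1, hxy2, hxy3⟩ := hxy'
  obtain ⟨hyz1, hyz2, hyz3⟩ := hyz'
  -- `z` is large
  have hzM : M ≤ (z : ℕ) := by
    by_contra hcon
    have hy : (y : ℕ) = z := by omega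
    have hx : (x : ℕ) = z := by omega
    apply hno
    refine ⟨z, ?_⟩
    rw [← heq]
    have hx' : ((x : ℕ) : ℤ) = ((z : ℕ) : ℤ) := by rw [hx]
    have hy' : ((y : ℕ) : ℤ) = ((z : ℕ) : ℤ) := by rw [hy]
    linarith
  obtain ⟨hg1, hg2⟩ := hN z (le_trans (le_max_left _ _) hzM)
  have hz2 : 2 ^ (2 * s + 4) ≤ (z : ℕ) := le_trans (le_max_right _ _) hzM
  have hx0 : 0 < (x : ℕ) := x.pos
  have hy0 : 0 < (y : ℕ) := y.pos
  have hz0 : 0 < (z : ℕ) := z.pos
  set P : ℕ := (p.eval (z : ℤ)).natAbs with hP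
  have hlz : 0 < Nat.log 2 z := by
    have : 2 * s + 4 ≤ Nat.log 2 z := Nat.le_log_of_pow_le (by norm_num) hz2
    omega
  have heq' : ((x : ℕ) : ℤ) - 2 * ((y : ℕ) : ℤ) = p.eval (z : ℤ) := by
    exact heq
  -- the sign of `p(z)`
  rcases le_total 0 (p.eval (z : ℤ)) with hsgn | hsgn
  · have hPz : (P : ℤ) = p.eval (z : ℤ) := by rw [hP]; exact Int.natAbs_of_nonneg hsgn
    have hxyP : (x : ℕ) = 2 * y + P := by
      have : ((x : ℕ) : ℤ) = 2 * ((y : ℕ) : ℤ) + (P : ℤ) := by rw [hPz]; linarith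
      exact_mod_cast this
    by_cases hcase : P ≤ 2 * (y : ℕ)
    · exact lg_mod_ne (k := 2) hy0 (by omega) (by omega) hxy2.symm
    · obtain ⟨h3, h4⟩ := log_ratio (w := x) hz2 hg1 hg2 (by omega) (by omega)
      exact lg_mod_ne hlz h3 h4 (hyz3.symm.trans hxy3.symm)
  · have hPz : (P : ℤ) = - p.eval (z : ℤ) := by
      rw [hP]; exact Int.ofNat_natAbs_of_nonpos hsgn
    have hxyP : (x : ℕ) + P = 2 * y := by
      have : ((x : ℕ) : ℤ) + (P : ℤ) = 2 * ((y : ℕ) : ℤ) := by rw [hPz]; linarith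
      exact_mod_cast this
    by_cases hcase : 2 * P ≤ (y : ℕ)
    · exact lg_mod_ne (k := 2) hy0 (by omega) (by omega) hxy2.symm
    · obtain ⟨h3, h4⟩ := log_ratio (w := y) hz2 hg1 hg2 (by omega) (by omega)
      exact lg_mod_ne hlz h3 h4 hyz3.symm

end Pool.Agent.Results.MP_0ef770_co.DegreeAtLeastTwo
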